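import Pool.Agent.Helper17.CR.Stmts

set_option autoImplicit false

namespace Pool.Agent.Helper44.CR

open Finset Pool.Agent.Helper17.CR

universe u

theorem st_COMM : ST_COMM.{u} := by
  intro X _ _ lam k θ σ g hlk hC hg x
  have himg : ∀ a b, g a ∈ θ (g b) ↔ a ∈ θ b := by
    intro a b
    rw [hg]
    constructor
    · intro h
      obtain ⟨c, hc, hc'⟩ := mem_image.1 h
      rwa [← g.injective hc']
    · exact fun h => mem_image_of_mem _ h
  have key : ∀ z, σ (g x) ∈ θ z ↔ g (σ x) ∈ θ z := by
    intro z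
    obtain ⟨z', rfl⟩ := g.surjective z
    rw [← hC.cor, himg, himg, ← hC.cor]
  by_contra hne
  have h1 := hC.pair _ _ hne
  have h2 : (univ.filter (fun y => σ (g x) ∈ θ y ∧ g (σ x) ∈ θ y)) = θ (g x) := by
    ext y
    rw [mem_filter]
    constructor
    · exact fun h => (hC.cor _ _).2 h.2.1
    · intro h
      have h3 := (hC.cor _ _).1 h
      exact ⟨mem_univ _, h3, (key y).1 h3⟩
  rw [h2, hC.card] at h1
  omega

end Pool.Agent.Helper44.CR
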