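import Pool.Agent.Helper17.CR.Stmts

set_option autoImplicit false

namespace Pool.Agent.Helper44.CR

open Finset Pool.Agent.Helper17.CR

universe u

/-- the order of a group acting freely divides the cardinality -/
theorem eqv_dvd {H Y : Type u} [Group H] [Finite H] (act : H → Y → Y) (hone : ∀ y, act 1 y = y)
    (hmul : ∀ g h y, act (g * h) y = act g (act h y)) (hfree : ∀ h y, act h y = y → h = 1) :
    ∀ (n : ℕ) (S : Finset Y), S.card = n → (∀ y ∈ S, ∀ h, act h y ∈ S) → Nat.card H ∣ S.card := by
  classical
  have : Fintype H := Fintype.ofFinite H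
  intro n
  induction n using Nat.strong_induction_on with
  | _ n ih =>
    intro S hSn hS
    rcases S.eq_empty_or_nonempty with rfl | ⟨y, hy⟩
    · simp
    · let O : Finset Y := univ.image (fun h : H => act h y)
      have hinj : Function.Injective (fun h : H => act h y) := by
        intro g h hgh
        have h1 : act (h⁻¹ * g) y = y := by
          rw [hmul]
          change act h⁻¹ (act g y) = y
          have h2 : act g y = act h y := hgh
          rw [h2, ← hmul, inv_mul_cancel, hone]
        have h3 := hfree _ _ h1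
        exact (inv_mul_eq_one.1 h3).symm
      have hO : O.card = Nat.card H := by
        rw [Finset.card_image_of_injective _ hinj, Finset.card_univ, Nat.card_eq_fintype_card]
      have hOS : O ⊆ S := by
        intro z hz
        obtain ⟨h, _, rfl⟩ := Finset.mem_image.1 hz
        exact hS y hy h
      have hcard := Finset.card_sdiff_add_card_eq_card hOS
      have hpos : 0 < O.card := Finset.card_pos.2 ⟨y, Finset.mem_image.2 ⟨1, mem_univ _, hone y⟩⟩
      have h1 := ih (S \ O).card (by omega) (S \ O) rfl (by
        intro z hz h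
        rw [mem_sdiff] at hz ⊢
        refine ⟨hS z hz.1 h, fun hzO => hz.2 ?_⟩
        obtain ⟨g, _, hg⟩ := Finset.mem_image.1 hzO
        refine Finset.mem_image.2 ⟨h⁻¹ * g, mem_univ _, ?_⟩
        rw [hmul]
        have h2 : act g y = act h z := hg
        rw [h2, ← hmul, inv_mul_cancel, hone])
      rw [← hcard, hO]
      exact Dvd.dvd.add h1 dvd_rfl

theorem st_EQV : ST_EQV.{u} := by
  intro X _ _ θ H hA hfree
  constructor
  · have h := eqv_dvd (H := H) (Y := X) (fun h x => h.1 x) (fun y => rfl) (fun g h y => rfl)
      (fun h y hy => Subtype.ext (hfree h.1 h.2 y hy)) _ univ rfl (fun _ _ _ => mem_univ _)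
    rwa [Finset.card_univ] at h
  · intro E hE
    have h := eqv_dvd (H := H) (Y := (_ : H) × X) (fun h p => ⟨h * p.1 * h⁻¹, h.1 p.2⟩)
      (fun y => by simp) (fun g h y => by
        refine Sigma.ext ?_ ?_
        · change g * h * y.1 * (g * h)⁻¹ = g * (h * y.1 * h⁻¹) * g⁻¹
          group
        · exact HEq.rfl)
      (fun h y hy => Subtype.ext (hfree h.1 h.2 y.2 (by
        have := congrArg (fun p : (_ : H) × X => p.2) hy
        exact this))) _
      (E.sigma (fun g => univ.filter (fun x => x ∈ θ (g.1 x)))) rfl (by
        rintro ⟨g, x⟩ hgx h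
        rw [mem_sigma] at hgx ⊢
        refine ⟨hE g hgx.1 h, ?_⟩
        have h1 := (mem_filter.1 hgx.2).2
        refine mem_filter.2 ⟨mem_univ _, ?_⟩
        change h.1 x ∈ θ ((h * g * h⁻¹ : H).1 (h.1 x))
        have h2 : (h * g * h⁻¹ : H).1 (h.1 x) = h.1 (g.1 x) := by
          change (h.1 * g.1 * h.1⁻¹) (h.1 x) = h.1 (g.1 x)
          simp [Equiv.Perm.mul_apply]
        rw [h2, hA h.1 h.2]
        exact mem_image_of_mem _ h1)
    rwa [Finset.card_sigma] at h

end Pool.Agent.Helper44.CR
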