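import Pool.Agent.Helper17.CR.Stmts

set_option autoImplicit false

namespace Pool.Agent.Helper44.CR

open Finset Pool.Agent.Helper17.CR

universe u

/-- multisets in a set on which `f` is injective -/
theorem tr_map_inj {A B : Type} (f : A → B) (Z : A → Prop)
    (hf : ∀ x y, Z x → Z y → f x = f y → x = y) :
    ∀ s s' : Multiset A, (∀ x ∈ s, Z x) → (∀ x ∈ s', Z x) → s.map f = s'.map f → s = s' := by
  intro s
  induction s using Multiset.induction with
  | empty =>
    intro s' _ _ h
    rw [Multiset.map_zero] at h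
    exact (Multiset.map_eq_zero.1 h.symm).symm
  | cons x t ih =>
    intro s' hs hs' h
    have h1 : f x ∈ s'.map f := by
      rw [← h, Multiset.map_cons]
      exact Multiset.mem_cons_self _ _
    obtain ⟨y, hy, hxy⟩ := Multiset.mem_map.1 h1
    have h2 : y = x := hf _ _ (hs' y hy) (hs x (Multiset.mem_cons_self _ _)) hxy
    subst h2
    obtain ⟨t', rfl⟩ := Multiset.exists_cons_of_mem hy
    rw [Multiset.map_cons, Multiset.map_cons, Multiset.cons_inj_right] at h
    rw [ih t' (fun z hz => hs z (Multiset.mem_cons_of_mem hz))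
      (fun z hz => hs' z (Multiset.mem_cons_of_mem hz)) h]

theorem st_TR (h1 : ST_ROOT.{u}) (h2 : ST_RANK.{u}) (h3 : ST_CONG.{u}) (h4 : ST_INJ) :
    ST_TR.{u} := by
  intro T _ _ _ q F _ _ φ n k mu c hq hq2 hn hqn B1 Bz hB hrow hcol hB1 hBz
  have hinj : Function.Injective (algebraMap OO ℂ) := Subtype.val_injective
  have hN : 1 ≤ 2 ^ (c + 1) := Nat.one_le_two_pow
  -- the square root
  have hβ2 : ((Real.sqrt (n : ℝ) : ℝ) : ℂ) ^ 2 = (n : ℂ) := by
    rw [← Complex.ofReal_pow, Real.sq_sqrt (by exact_mod_cast hn.le)]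
    simp
  obtain ⟨β, hβ⟩ : ∃ β : ℂ, β ^ 2 = (n : ℂ) := ⟨_, hβ2⟩
  have hβN : β ^ (2 ^ (c + 1)) = (n : ℂ) ^ (2 ^ c) := by
    rw [pow_succ', pow_mul, hβ]
  have hβint : IsIntegral ℤ β := by
    refine IsIntegral.of_pow (n := 2) (by norm_num) ?_
    rw [hβ]
    exact isIntegral_algebraMap (R := ℤ) (A := ℂ) (x := n)
  obtain ⟨β', hβ'⟩ : ∃ β' : OO, algebraMap OO ℂ β' = β := ⟨⟨β, hβint⟩, rfl⟩
  -- matrices over `ℂ`
  let f : OO →+* ℂ := algebraMap OO ℂ
  have e1 : (B1.map f) ^ (2 ^ (c + 1)) = ((n : ℂ) ^ (2 ^ c)) • (1 : Matrix T T ℂ) +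
      (mu : ℂ) • JJ T ℂ := by
    have h := congrArg (f.mapMatrix (m := T)) hB1
    rw [map_pow] at h
    change (B1.map f) ^ (2 ^ (c + 1)) = _ at h
    rw [h]
    ext i j
    simp [JJ, Matrix.one_apply]
    split_ifs <;> simp
  have ez : (Bz.map f) ^ (2 ^ (c + 1)) = ((n : ℂ) ^ (2 ^ c)) • (1 : Matrix T T ℂ) := by
    have h := congrArg (f.mapMatrix (m := T)) hBz
    rw [map_pow] at h
    change (Bz.map f) ^ (2 ^ (c + 1)) = _ at h
    rw [h]
    ext i j
    simp [Matrix.one_apply]
    split_ifs <;> simp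
  have er : ∀ i, ∑ j, (B1.map f) i j = (k : ℂ) := by
    intro i
    have h := congrArg f (hrow i)
    rw [map_sum, map_intCast] at h
    exact h
  have ec : ∀ j, ∑ i, (B1.map f) i j = (k : ℂ) := by
    intro j
    have h := congrArg f (hcol j)
    rw [map_sum, map_intCast] at h
    exact h
  obtain ⟨B', hchar, hB'N, htr⟩ := h2 T (B1.map f) (2 ^ (c + 1)) (k : ℂ) β ((n : ℂ) ^ (2 ^ c))
    (mu : ℂ) hN er ec e1 hβN
  obtain ⟨r, r', hr, hr', hrr⟩ := h3 T F φ B1 Bz hB
  change r.map f = (B1.map f).charpoly.roots at hr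
  change r'.map f = (Bz.map f).charpoly.roots at hr'
  -- roots
  have hroots : (B1.map f).charpoly.roots + {β} = (k : ℂ) ::ₘ B'.charpoly.roots := by
    have h := congrArg Polynomial.roots hchar
    rw [Polynomial.roots_mul (mul_ne_zero (Matrix.charpoly_monic _).ne_zero
      (Polynomial.X_sub_C_ne_zero _)), Polynomial.roots_mul (mul_ne_zero
      (Polynomial.X_sub_C_ne_zero _) (Matrix.charpoly_monic _).ne_zero),
      Polynomial.roots_X_sub_C, Polynomial.roots_X_sub_C] at h
    rw [h, Multiset.singleton_add]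
  have hrβ : (r + {β'}).map f = (k : ℂ) ::ₘ B'.charpoly.roots := by
    rw [Multiset.map_add, Multiset.map_singleton, hr, hβ']
    exact hroots
  have hk : f (k : OO) = (k : ℂ) := map_intCast f k
  obtain ⟨s, hs⟩ : ∃ s, r + {β'} = (k : OO) ::ₘ s := by
    have h : (k : ℂ) ∈ (r + {β'}).map f := by
      rw [hrβ]; exact Multiset.mem_cons_self _ _
    obtain ⟨e, he, hek⟩ := Multiset.mem_map.1 h
    have : e = (k : OO) := hinj (by rw [hk]; exact hek)
    rw [this] at he
    exact Multiset.exists_cons_of_mem he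
  have hsB : s.map f = B'.charpoly.roots := by
    rw [hs, Multiset.map_cons, hk, Multiset.cons_inj_right] at hrβ
    exact hrβ
  let Z : OO → Prop := fun x => x ^ (2 ^ (c + 1)) = (n : OO) ^ (2 ^ c)
  have hZ : ∀ x : OO, (f x) ^ (2 ^ (c + 1)) = (n : ℂ) ^ (2 ^ c) → Z x := by
    intro x hx
    apply hinj
    change f (x ^ (2 ^ (c + 1))) = f ((n : OO) ^ (2 ^ c))
    rw [map_pow, map_pow, map_intCast, hx]
  have hsZ : ∀ x ∈ s, Z x := by
    intro x hx
    apply hZ
    refine h1 T B' _ _ hB'N (f x) ?_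
    rw [← hsB]
    exact Multiset.mem_map_of_mem f hx
  have hβZ : Z β' := hZ β' (by
    change (algebraMap OO ℂ β') ^ _ = _
    rw [hβ', hβN])
  have hr'Z : ∀ x ∈ r' + {β'}, Z x := by
    intro x hx
    rcases Multiset.mem_add.1 hx with h | h
    · apply hZ
      refine h1 T (Bz.map f) _ _ ez (f x) ?_
      rw [← hr']
      exact Multiset.mem_map_of_mem f h
    · rw [Multiset.mem_singleton.1 h]
      exact hβZ
  have hmap : (r' + {β'}).map φ = φ (k : OO) ::ₘ s.map φ := by
    rw [← Multiset.map_cons, ← hs, Multiset.map_add, Multiset.map_add, hrr]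
  obtain ⟨α, hα, hαk⟩ : ∃ α ∈ r' + {β'}, φ α = φ (k : OO) := by
    have h : φ (k : OO) ∈ (r' + {β'}).map φ := by
      rw [hmap]; exact Multiset.mem_cons_self _ _
    exact Multiset.mem_map.1 h
  obtain ⟨s', hs'⟩ := Multiset.exists_cons_of_mem hα
  have hss : s' = s := by
    refine tr_map_inj φ Z (fun x y hx hy h => h4 q F φ n c hq hq2 hqn x y hx hy h) s' s
      (fun x hx => hr'Z x (by rw [hs']; exact Multiset.mem_cons_of_mem hx)) hsZ ?_
    rw [hs', Multiset.map_cons, hαk, Multiset.cons_inj_right] at hmap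
    exact hmap
  refine ⟨α, hr'Z α hα, hαk, ?_⟩
  apply hinj
  change f Bz.trace = f (B1.trace - (k : OO) + α)
  rw [map_add, map_sub, hk, AddMonoidHom.map_trace f, AddMonoidHom.map_trace f]
  have t1 : (B1.map f).trace = (r.map f).sum := by
    rw [Matrix.trace_eq_sum_roots_charpoly, hr]
  have tz : (Bz.map f).trace = (r'.map f).sum := by
    rw [Matrix.trace_eq_sum_roots_charpoly, hr']
  have s1 : (r.map f).sum + β = (k : ℂ) + (s.map f).sum := by
    have h := congrArg (fun m : Multiset OO => (m.map f).sum) hs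
    simp only [Multiset.map_add, Multiset.map_singleton, Multiset.sum_add, Multiset.sum_singleton,
      Multiset.map_cons, Multiset.sum_cons, hk] at h
    rw [← hβ']
    exact h
  have sz : (r'.map f).sum + β = f α + (s.map f).sum := by
    rw [hss] at hs'
    have h := congrArg (fun m : Multiset OO => (m.map f).sum) hs'
    simp only [Multiset.map_add, Multiset.map_singleton, Multiset.sum_add, Multiset.sum_singleton,
      Multiset.map_cons, Multiset.sum_cons] at h
    rw [← hβ']
    exact h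
  rw [t1, tz]
  linear_combination sz - s1

end Pool.Agent.Helper44.CR
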